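import Pool.Agent.L7h10.AB.Stm2

/-! Project AB, part BADB (helper23). -/

set_option autoImplicit false

namespace Pool.Agent.L7h23.AB

open Polynomial Pool.Agent.L7h10.AB Pool.Agent.L7h56.AB

theorem s_BADB : S_BADB := by
  intro K _ p _ n hn hnp g h hg hgd hh hhd
  have hn0 : ((n : K) + 1) ≠ 0 := by
    have := cast_ne (K := K) p (Nat.succ_pos n) (by omega : n.succ < p)
    push_cast at this
    exact this
  have hPm : (g ^ 2 * h).Monic := (hg.pow 2).mul hh
  have hPd : (g ^ 2 * h).natDegree = n + 1 := by
    rw [(hg.pow 2).natDegree_mul hh, hg.natDegree_pow, hgd, hhd]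
    omega
  have hPc : (g ^ 2 * h).coeff (n + 1) = 1 := by
    rw [← hPd]; exact hPm
  have hfc : (C ((n : K) + 1)⁻¹ * derivative (g ^ 2 * h)).coeff n = 1 := by
    rw [coeff_C_mul, coeff_derivative, hPc, one_mul]
    exact inv_mul_cancel₀ hn0
  have hfd : (C ((n : K) + 1)⁻¹ * derivative (g ^ 2 * h)).natDegree ≤ n := by
    refine (natDegree_C_mul_le _ _).trans ?_
    have := natDegree_derivative_le (g ^ 2 * h)
    omega
  have hfd' : (C ((n : K) + 1)⁻¹ * derivative (g ^ 2 * h)).natDegree = n :=
    natDegree_eq_of_le_of_coeff_ne_zero hfd (by rw [hfc]; exact one_ne_zero)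
  refine ⟨monic_of_natDegree_le_of_coeff_eq_one n hfd hfc, hfd', ?_⟩
  rintro ⟨h1, h2⟩
  set f := C ((n : K) + 1)⁻¹ * derivative (g ^ 2 * h) with hf
  have hgdeg : g.degree ≤ 2 := by
    rw [degree_eq_natDegree hg.ne_zero, hgd]; rfl
  have hg2 : g.coeff 2 = 1 := by rw [← hgd]; exact hg
  have hgq := eq_quadratic_of_degree_le_two hgdeg
  rw [hg2, C_1, one_mul] at hgq
  obtain ⟨a, ha⟩ := IsAlgClosed.exists_aeval_eq_zero (AlgebraicClosure K) g (by
    rw [degree_eq_natDegree hg.ne_zero, hgd]; norm_num)
  have hk : derivative (g ^ 2 * h) = g * (2 * derivative g * h + g * derivative h) := by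
    rw [pow_two, derivative_mul, derivative_mul]
    ring
  have hroot : ∀ r : AlgebraicClosure K, aeval r g = 0 → aeval r f = 0 := by
    intro r hr
    rw [hf, hk, map_mul, map_mul, hr, zero_mul, mul_zero]
  by_cases hd : aeval a (derivative g) = 0
  · apply h1 a (hroot a ha)
    rw [hf, derivative_C_mul, hk, derivative_mul, map_mul, map_add, map_mul, map_mul, hd, ha,
      zero_mul, zero_mul, add_zero, mul_zero]
  · -- the other root
    set u := algebraMap K (AlgebraicClosure K) (g.coeff 1) with hu
    set v := algebraMap K (AlgebraicClosure K) (g.coeff 0) with hv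
    have hga : ∀ r : AlgebraicClosure K, aeval r g = r ^ 2 + u * r + v := by
      intro r
      conv_lhs => rw [hgq]
      simp [hu, hv]
    have hgda : aeval a (derivative g) = 2 * a + u := by
      have hq : g = X * X + C (g.coeff 1) * X + C (g.coeff 0) := by
        conv_lhs => rw [hgq]
        ring
      conv_lhs => rw [hq]
      rw [derivative_add, derivative_add, derivative_mul, derivative_X, derivative_C_mul,
        derivative_X, derivative_C]
      simp only [map_add, map_mul, aeval_X, map_one, map_zero, aeval_C]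
      rw [← hu]
      ring
    have ha' : aeval (-u - a) g = 0 := by
      rw [hga] at ha ⊢
      linear_combination ha
    have hconst : ∃ c : K, prim f = C ((n : K) + 1)⁻¹ * (g ^ 2 * h) + C c := by
      refine ⟨(prim f - C ((n : K) + 1)⁻¹ * (g ^ 2 * h)).coeff 0, ?_⟩
      rw [← const_of_deriv p (prim f - C ((n : K) + 1)⁻¹ * (g ^ 2 * h)) ?_ ?_]
      · ring
      · refine lt_of_le_of_lt (natDegree_sub_le _ _) (max_lt ?_ ?_)
        · refine lt_of_le_of_lt (natDegree_prim f) ?_
          rw [hfd']; exact hnp
        · refine lt_of_le_of_lt (natDegree_C_mul_le _ _) ?_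
          rw [hPd]; exact hnp
      · rw [derivative_sub, deriv_prim p f (by rw [hfd']; exact hnp), derivative_C_mul, ← hf,
          sub_self]
    obtain ⟨c, hc⟩ := hconst
    have hval : ∀ r : AlgebraicClosure K, aeval r g = 0 →
        aeval r (prim f) = algebraMap K (AlgebraicClosure K) c := by
      intro r hr
      rw [hc, map_add, map_mul, map_mul, map_pow, hr, aeval_C, aeval_C]
      simp
    have := h2 a (-u - a) (hroot a ha) (hroot _ ha') ((hval a ha).trans (hval _ ha').symm)
    apply hd
    rw [hgda]
    linear_combination this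

end Pool.Agent.L7h23.AB
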